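import Pool.Agent.W996.EC.QFinal

/-! # A countable/cocountable dichotomy for systems of exponential equations over a curve

Zilber's quasiminimality conjecture predicts that every subset of `ℂ` which is definable (or just
invariant) in `(ℂ, +, ·, exp)` with finitely many parameters is countable or cocountable.

Let `C` be an irreducible plane algebraic curve `F(z,v) = 0`, with finitely many points removed,
let `R_1, …, R_n` be nonzero rational functions on `C`, and let
`P(s; x; z, v) = ∑_k f_k(s) P_k(x_1, …, x_n; z, v)` with polynomials `P_k` and arbitrary entire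
functions `f_k` (for example exponential polynomials in `s`, with iterated exponentials allowed).
We prove unconditionally that the set of those `s ∈ ℂ` for which the system of `n + 1` equations
`exp x_1 = R_1(z,v), …, exp x_n = R_n(z,v), P(s; x; z, v) = 0` has a solution `x ∈ ℂ^n`,
`(z,v) ∈ C`, is countable or cocountable, as quasiminimality predicts.
For `n` different exponentials the solution sets here are not hypersurfaces: they are projections
of systems of `n + 2` exponential-algebraic equations in `n + 3` unknowns. -/

set_option autoImplicit false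

namespace Pool.Agent.Results.MP_a12702_lc.CurveTypeDichotomy

open Polynomial

/-- `ℂ[X][X]` are the polynomials in `z` and `v`; `F.evalEval z v` is the value at `(z, v)`.  The
coefficients of the polynomials `P k` in `x` are polynomials in `z` and `v`. -/
theorem result :
    ∀ (n K : ℕ) (F H : ℂ[X][X]) (A B : Fin n → ℂ[X][X]) (f : Fin K → ℂ → ℂ)
      (P : Fin K → MvPolynomial (Fin n) ℂ[X][X]) (S : Set ℂ),
      Irreducible F → 1 ≤ F.natDegree → ¬ F ∣ H → (∀ i, ¬ F ∣ A i) → (∀ i, ¬ F ∣ B i) →
      (∀ k, Differentiable ℂ (f k)) →
      S = {s : ℂ | ∃ (z v : ℂ) (x : Fin n → ℂ), F.evalEval z v = 0 ∧ H.evalEval z v ≠ 0 ∧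
        (∀ i, (A i).evalEval z v ≠ 0 ∧ (B i).evalEval z v ≠ 0) ∧
        (∀ i, Complex.exp (x i) = (A i).evalEval z v / (B i).evalEval z v) ∧
        ∑ k, f k s * MvPolynomial.eval x (MvPolynomial.map (evalEvalRingHom z v) (P k)) = 0} →
      S.Countable ∨ Sᶜ.Countable := by
  rintro n K F H A B f P S hF hd hH hA hB hf rfl
  exact Pool.Agent.W996.EC.quasi n F H A B K f P hF hd hH hA hB hf

end Pool.Agent.Results.MP_a12702_lc.CurveTypeDichotomy
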